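import Pool.Agent.Helper48.K4.Sys
import Pool.Agent.Helper21.KQ.Main

/-! Several families of cyclic covers. -/

set_option autoImplicit false

open Matrix H77MT Pool.Agent.Helper79.KN Pool.Agent.Helper79.KQ

namespace Pool.Agent.Helper79.KR

variable {Γ X T S n : Type} [Group Γ] [DecidableEq X] [Fintype X] [Fintype n] [DecidableEq n]

/-- the numbers of several families are separated inside each family -/
theorem isSeps {cl : X → S} {h : T → X → ℤ → ℕ} (hh : ∀ s, IsCyclic n fun t (x : {x // cl x = s}) => h t x) :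
    Pool.Agent.Helper61.K4.IsSeps cl h where
  asym := fun x => (Pool.Agent.Helper21.KQ.isSep_cyclic (hh (cl x))).asym ⟨x, rfl⟩
  sep := fun x x' hne hcl => (Pool.Agent.Helper21.KQ.isSep_cyclic (hh (cl x))).sep ⟨x, rfl⟩ ⟨x', hcl.symm⟩
    (fun h => hne (congrArg Subtype.val h))

/-- **Several families.** -/
theorem main {I : Type} {K : I → Type} [∀ i, Field (K i)] [∀ i, IsAlgClosed (K i)] [∀ i, CharZero (K i)]
    {cl : X → S} {ρ : ∀ i, Rep Γ X n (K i)} {h : T → X → ℤ → ℕ} (h4 : 4 < Fintype.card n)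
    (hh : ∀ s, IsCyclic n fun t (x : {x // cl x = s}) => h t x) (hC : Pool.Agent.Helper98.KU.IsSystems ρ)
    (hB : ∀ x, ∃ i, HasHT (ρ i) h ∧ Pool.Agent.Helper98.KU.IsBigAts cl (ρ i) x) (i : I) : IsFull (ρ i) :=
  Pool.Agent.Helper48.K4.Sys.systems h4 (isSeps hh) hC hB i

end Pool.Agent.Helper79.KR
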